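import Pool.Agent.X308.V.Defs

/-!
# Homologically trivial one-cycles: definitions
-/

set_option autoImplicit false

open CategoryTheory AlgebraicGeometry

universe u v w

namespace Pool.Agent.X308.A

open Pool.Agent.H914 Pool.Agent.H914.VarClass Pool.Agent.H914.VarClass.Obj Pool.Agent.W492.BB
  Pool.Agent.W550.Corr Pool.Agent.TH133 Pool.Agent.TH829.Prime

variable {k : Type u} [Field k] {𝒱 : VarClass k} {C : TheoryData.{u, v, 0} 𝒱 ℚ} {K : Type w}
  [Field K] (H : WeilTheoryData.{u, v, w} C K)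

/-- The homologically trivial one-cycles on `X` are smash-nilpotent. -/
def OneCyclesNilpotent (X : 𝒱.Obj) : Prop :=
  ∀ a : C.A X, C.Deg ((X.dim : ℤ) - 1) a → H.cl a = 0 → SmashNilpotent C a

/-- The existence of the Albanese projector: there are a curve `T`, a divisor class `ψ` on `X × T`
and a one-cycle `α` on `T × X` such that the correspondence `α ∘ ψ` from `X` to `X` acts as the
identity on `H^(2 dim X - 1)(X)`. -/
def AlbaneseProperty (X : 𝒱.Obj) : Prop :=
  ∃ (T : 𝒱.Obj) (ψ : C.A (X.prod T)) (α : C.A (T.prod X)), T.dim = 1 ∧ C.Deg 1 ψ ∧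
    C.Deg X.dim α ∧ ∀ a : H.A X, H.Deg (2 * (X.dim : ℤ) - 1) a →
      H.act (H.cl (C.comp ψ α)) a = a

end Pool.Agent.X308.A
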