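import Pool.Agent.X308.V.Main
import Pool.Agent.X308.A.Defs

/-!
# Homologically trivial one-cycles on the product of two varieties
-/

set_option autoImplicit false

open CategoryTheory AlgebraicGeometry

universe u v w

namespace Pool.Agent.X308.A

open Pool.Agent.H914 Pool.Agent.H914.VarClass Pool.Agent.H914.VarClass.Obj Pool.Agent.W492.BB
  Pool.Agent.W550.Corr Pool.Agent.TH133 Pool.Agent.TH829.Prime Pool.Agent.TH829.Kim
  Pool.Agent.Y148.BB Pool.Agent.X308.Q Pool.Agent.X308.V

set_option linter.unusedSectionVars false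

variable {k : Type u} [Field k] {𝒱 : VarClass k}

section chow

variable {C : TheoryData.{u, v, 0} 𝒱 ℚ} [hC : IsChowProj C] {T X Y Z W : 𝒱.Obj}

include hC

lemma exists_point (X : 𝒱.Obj) : ∃ o : C.A X, C.Deg X.dim o ∧ HasDegree C o 1 := by
  obtain ⟨o, ho, h1, h2⟩ := hC.exists_deg_one X
  exact ⟨o, ho, fun Y => by rw [one_smul]; exact ⟨h2 Y, h1 Y⟩⟩

lemma exists_point_curve (hT : T.dim = 1) : ∃ o : C.A T, C.Deg 1 o ∧ HasDegree C o 1 := by
  obtain ⟨o, ho, h1⟩ := exists_point (C := C) T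
  refine ⟨o, ?_, h1⟩
  rw [hT] at ho
  exact_mod_cast ho

lemma point_unique (hd : IsDom C) (hP : CurveProperties C) {x x' : C.A X} (h1 : C.Deg X.dim x)
    (h2 : HasDegree C x 1) (h3 : C.Deg X.dim x') (h4 : HasDegree C x' 1) : x = x' := by
  rw [← sub_eq_zero]
  apply zero_cycle hd hP (Submodule.sub_mem _ h1 h3)
  have h5 := HasDegree.add h2 (HasDegree.smul (-1) h4)
  norm_num at h5
  rw [sub_eq_add_neg]
  exact h5

lemma tp_cograph (f : X ⟶ Y) : tp C (C.cograph f) = C.graph f := by
  rw [tp_eq_push, TheoryData.cograph, TheoryData.graph, ← C.push_comp]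
  congr 2
  apply prod_ext <;> simp [sw]

lemma tp_graph (f : X ⟶ Y) : tp C (C.graph f) = C.cograph f := by
  rw [← tp_cograph, tp_tp]

lemma comp_cograph_graph (f : T ⟶ X) (g : T ⟶ Y) :
    C.comp (C.cograph f) (C.graph g) = C.push (Obj.lift f g) 1 := by
  rw [comp_graph, TheoryData.cograph, ← C.push_comp]
  congr 2
  apply prod_ext <;> simp

lemma push_mem_top (f : X ⟶ Y) {o : C.A X} (ho : C.Deg X.dim o) : C.Deg Y.dim (C.push f o) := by
  have h3 := C.push_mem f ho
  have e : (X.dim : ℤ) + 1 * ((Y.dim : ℤ) - X.dim) = Y.dim := by ring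
  rwa [e] at h3

/-- The part of a one-cycle on `X × Y` without components on the factors. -/
noncomputable def red (x : C.A X) (y : C.A Y) : C.A (X.prod Y) →ₗ[ℚ] C.A (X.prod Y) :=
  LinearMap.id - LinearMap.mulLeft ℚ (C.pull (fst X Y) x) ∘ₗ (C.pull (snd X Y)).toLinearMap ∘ₗ
      C.push (snd X Y) -
    LinearMap.mulRight ℚ (C.pull (snd X Y) y) ∘ₗ (C.pull (fst X Y)).toLinearMap ∘ₗ C.push (fst X Y)

lemma red_apply (x : C.A X) (y : C.A Y) (a : C.A (X.prod Y)) :
    red x y a = a - C.ext x (C.push (snd X Y) a) - C.ext (C.push (fst X Y) a) y := rfl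

lemma red_curve {o : C.A T} (hT : T.dim = 1) (f : T ⟶ X) (g : T ⟶ Y) :
    red (C.push f o) (C.push g o) (C.push (Obj.lift f g) 1) =
      C.comp (C.cograph f) (C.comp (oddProj C o) (C.graph g)) := by
  rw [oddProj, sub_comp, sub_comp, dg_comp, comp_sub, comp_sub, comp_cograph_graph, ext_comp,
    ext_comp, comp_ext, comp_ext, tp_cograph, C.act_graph, C.act_graph, C.act_graph, C.act_graph,
    red_apply, ← C.push_comp, ← C.push_comp, lift_fst, lift_snd]

end chow

section weil

variable {C : TheoryData.{u, v, 0} 𝒱 ℚ} [hC : IsChowProj C] {K : Type w} [Field K]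
  (H : WeilTheoryData.{u, v, w} C K) [hH : IsWeilProj H] {T X Y Z W : 𝒱.Obj} {I : Family C}

include hC hH

/-- The homological part of the argument. -/
lemma cl_graph_zero {o : C.A T} (hT : T.dim = 1) (ho : C.Deg 1 o) (h1 : HasDegree C o 1)
    (g : T ⟶ Y) {E : C.A (Y.prod Y)}
    (hE : ∀ a : H.A Y, H.Deg (2 * (Y.dim : ℤ) - 1) a → H.act (H.cl E) a = a) :
    H.cl (C.comp (C.comp (oddProj C o) (C.graph g)) (dg C Y - E)) = 0 := by
  apply hom_zero_of_act
  have key : H.actL (H.cl (C.comp (C.comp (oddProj C o) (C.graph g)) (dg C Y - E))) = 0 := by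
    apply ext_gr H
    intro m a ha
    rw [H.actL_apply, actH_comp, actH_comp, LinearMap.zero_apply]
    have h2 := curveCK_act H hT ho h1 1 m ha
    have e1 : curveCK C o 1 = oddProj C o := rfl
    rw [e1] at h2
    rw [h2]
    split_ifs with hm
    · have h3 : H.act (H.cl (C.graph g)) a = H.push g a := by
        rw [TheoryData.graph, H.cl_push, map_one]
        exact H.act_graph g a
      have h4 : H.push g a ∈ H.gr Y (2 * (Y.dim : ℤ) - 1) := by
        have h5 := H.push_mem g ha
        have e2 : m + 2 * ((Y.dim : ℤ) - T.dim) = 2 * (Y.dim : ℤ) - 1 := by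
          rw [hm, hT]; push_cast; ring
        rwa [e2] at h5
      rw [h3, map_sub, TheoryData.act_sub, actH_dg, hE _ h4, sub_self]
    · rw [TheoryData.act_map_zero, TheoryData.act_map_zero]
  intro a
  exact LinearMap.congr_fun key a

/-- The restriction to the factor. -/
lemma one_of_curve (hP : CurveProperties C) (hI : IsPrime C I)
    (h : ∀ T : 𝒱.Obj, T.dim = 1 → ∀ b : C.A (X.prod T), C.Deg (((X.prod T).dim : ℤ) - 1) b →
      H.cl b = 0 → b ∈ I (X.prod T) (((X.prod T).dim : ℤ) - 1)) {c : C.A X}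
    (hc : C.Deg ((X.dim : ℤ) - 1) c) (h0 : H.cl c = 0) : c ∈ I X ((X.dim : ℤ) - 1) := by
  by_cases hT : ∃ T : 𝒱.Obj, T.dim = 1
  · obtain ⟨T, hT⟩ := hT
    obtain ⟨o, ho, h1⟩ := exists_point_curve (C := C) hT
    have hmem : C.ext c o ∈ C.gr (X.prod T) (((X.prod T).dim : ℤ) - 1) := by
      have h2 := ext_mem' hc ho
      have e : (X.dim : ℤ) - 1 + 1 = ((X.prod T).dim : ℤ) - 1 := by
        rw [dim_prod, hT]; push_cast; ring
      rwa [e] at h2
    have h2 := h T hT (C.ext c o) hmem (by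
      rw [TheoryData.ext, map_mul, H.cl_pull, h0, map_zero, zero_mul])
    have h3 := hI.push_mem (fst X T) h2
    have e1 : C.down (fst X T) (C.ext c o) = c := by
      rw [TheoryData.down, TheoryData.ext, C.proj_left, (h1 X).2, one_smul, mul_one]
    rw [e1] at h3
    exact hI.congr (by rw [dim_prod]; push_cast; ring) h3
  · have h2 := hP.one_cycles X c hc
    have h3 : {c | ∃ (T : 𝒱.Obj) (f : T ⟶ X), T.dim = 1 ∧ c = C.down f 1} = ∅ := by
      ext c
      simp only [Set.mem_setOf_eq, Set.mem_empty_iff_false, iff_false]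
      rintro ⟨T, f, hT', -⟩
      exact hT ⟨T, hT'⟩
    rw [h3, Submodule.span_empty, Submodule.mem_bot] at h2
    rw [h2]
    exact Submodule.zero_mem _

/-- Homologically trivial one-cycles on `X × Y` modulo a prime adequate relation. -/
theorem pair_mem (hP : CurveProperties C) (hI : IsPrime C I)
    (hX : ∀ T : 𝒱.Obj, T.dim = 1 → ∀ b : C.A (X.prod T), C.Deg (((X.prod T).dim : ℤ) - 1) b →
      H.cl b = 0 → b ∈ I (X.prod T) (((X.prod T).dim : ℤ) - 1))
    (hY : ∀ T : 𝒱.Obj, T.dim = 1 → ∀ b : C.A (Y.prod T), C.Deg (((Y.prod T).dim : ℤ) - 1) b →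
      H.cl b = 0 → b ∈ I (Y.prod T) (((Y.prod T).dim : ℤ) - 1))
    (hA : AlbaneseProperty H Y) {a : C.A (X.prod Y)} (ha : C.Deg (((X.prod Y).dim : ℤ) - 1) a)
    (h0 : H.cl a = 0) : a ∈ I (X.prod Y) (((X.prod Y).dim : ℤ) - 1) := by
  obtain ⟨T₀, ψ, α, hT₀, hψ, hα, hE⟩ := hA
  have hd := isDom_quo hI
  have hQ := curveProperties_quo hI hP
  obtain ⟨x, hx, hx1⟩ := exists_point (C := C) X
  obtain ⟨y, hy, hy1⟩ := exists_point (C := C) Y
  let hA := hI.toIsAdequate
  -- the one-cycles on `T × Y`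
  have hYT : ∀ T : 𝒱.Obj, T.dim = 1 → ∀ b : C.A (T.prod Y), C.Deg (((T.prod Y).dim : ℤ) - 1) b →
      H.cl b = 0 → qc hA b = 0 := by
    intro T hT b hb hb0
    have h1 : C.Deg (((Y.prod T).dim : ℤ) - 1) (tp C b) := by
      have h2 := tp_mem C hb
      have e : ((T.prod Y).dim : ℤ) - 1 = ((Y.prod T).dim : ℤ) - 1 := by
        rw [dim_prod, dim_prod]; push_cast; ring
      rwa [e] at h2
    have h2 := hY T hT (tp C b) h1 (by rw [cl_tp, hb0, tp_zero])
    have h3 := hI.pull_mem (sw T Y) h2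
    have e1 : C.up (sw T Y) (tp C b) = b := tp_tp C b
    rw [e1] at h3
    exact qc_of_mem _ h3
  -- the operator
  let E : C.A (Y.prod Y) := C.comp ψ α
  have key : ∀ b : (quo hA).A (X.prod Y), (quo hA).Deg (((X.prod Y).dim : ℤ) - 1) b →
      (quo hA).comp (red (qc hA x) (qc hA y) b) (qc hA E) = red (qc hA x) (qc hA y) b := by
    intro b hb
    have hb' := hQ.one_cycles _ b hb
    have key : ∀ c ∈ {c | ∃ (T : 𝒱.Obj) (f : T ⟶ X.prod Y), T.dim = 1 ∧
        c = (quo hA).down f 1},
        ((LinearMap.flip (compL (quo hA) (X := X) (Y := Y) (Z := Y)) (qc hA E)) ∘ₗ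
          red (qc hA x) (qc hA y)) c = (red (qc hA x) (qc hA y)) c := by
      rintro c ⟨T, f, hT, rfl⟩
      obtain ⟨o, ho, ho1⟩ := exists_point_curve (C := C) hT
      have hoT : C.Deg T.dim o := by rw [hT]; exact_mod_cast ho
      have e1 : f = Obj.lift (f ≫ fst X Y) (f ≫ snd X Y) := by
        apply prod_ext <;> simp
      have ex : qc hA x = (quo hA).push (f ≫ fst X Y) (qc hA o) :=
        point_unique hd hQ (qc_mem _ hx) (hasDegree_qc _ hx1) (push_mem_top _ (qc_mem _ hoT))
          (hasDegree_push _ (hasDegree_qc _ ho1))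
      have ey : qc hA y = (quo hA).push (f ≫ snd X Y) (qc hA o) :=
        point_unique hd hQ (qc_mem _ hy) (hasDegree_qc _ hy1) (push_mem_top _ (qc_mem _ hoT))
          (hasDegree_push _ (hasDegree_qc _ ho1))
      have h1 : red (qc hA x) (qc hA y) ((quo hA).down f 1) =
          (quo hA).comp ((quo hA).cograph (f ≫ fst X Y))
            ((quo hA).comp (oddProj (quo hA) (qc hA o)) ((quo hA).graph (f ≫ snd X Y))) := by
        rw [← red_curve hT, ← e1, ← ex, ← ey]
      have h2 : (quo hA).comp ((quo hA).comp (oddProj (quo hA) (qc hA o))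
          ((quo hA).graph (f ≫ snd X Y))) (qc hA E) =
          (quo hA).comp (oddProj (quo hA) (qc hA o)) ((quo hA).graph (f ≫ snd X Y)) := by
        have h3 := hYT T hT (C.comp (C.comp (oddProj C o) (C.graph (f ≫ snd X Y)))
          (dg C Y - E)) ?_ (cl_graph_zero H hT ho ho1 (f ≫ snd X Y) hE)
        · rw [comp_sub, comp_dg, qc_sub, sub_eq_zero, ← qc_comp, ← qc_comp, ← qc_odd,
            ← qc_graph] at h3
          exact h3.symm
        · have h4 : oddProj C o ∈ C.gr (T.prod T) ((T.dim : ℤ) + 0) := by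
            rw [add_zero]; exact odd_mem hT ho
          have h5 : C.graph (f ≫ snd X Y) ∈ C.gr (T.prod Y) ((T.dim : ℤ) + (Y.dim - 1)) := by
            have h6 := C.push_mem (Obj.lift (𝟙 T) (f ≫ snd X Y)) (C.one_mem T)
            have e : (0 : ℤ) + 1 * (((T.prod Y).dim : ℤ) - (T.dim : ℤ)) = T.dim + (Y.dim - 1) := by
              rw [dim_prod, hT]; push_cast; ring
            rwa [e] at h6
          have h6 : dg C Y - E ∈ C.gr (Y.prod Y) ((Y.dim : ℤ) + 0) := by
            rw [add_zero]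
            refine Submodule.sub_mem _ (dg_mem C Y) ?_
            have h7 := comp_mem C (e := 1 - Y.dim) (e' := Y.dim - 1) (Γ := ψ) (Δ := α)
              (by have e : (Y.dim : ℤ) + (1 - Y.dim) = 1 := by ring
                  rw [e]; exact hψ)
              (by have e : (T₀.dim : ℤ) + (Y.dim - 1) = Y.dim := by rw [hT₀]; push_cast; ring
                  rw [e]; exact hα)
            have e : (Y.dim : ℤ) + (1 - Y.dim + (Y.dim - 1)) = Y.dim := by ring
            rwa [e] at h7
          have h7 := comp_mem C (comp_mem C h4 h5) h6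
          have e : (T.dim : ℤ) + (0 + (Y.dim - 1) + 0) = ((T.prod Y).dim : ℤ) - 1 := by
            rw [dim_prod]; push_cast; ring
          rwa [e] at h7
      rw [LinearMap.comp_apply, LinearMap.flip_apply, compL_apply, h1, comp_assoc, h2]
    exact LinearMap.eqOn_span key hb'
  -- the conclusion
  have hz2 : qc hA (C.push (snd X Y) a) = 0 := by
    apply qc_of_mem
    exact one_of_curve H hP hI hY (push_mem_one _ ha) (by rw [H.cl_push, h0, map_zero])
  have hz1 : qc hA (C.push (fst X Y) a) = 0 := by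
    apply qc_of_mem
    exact one_of_curve H hP hI hX (push_mem_one _ ha) (by rw [H.cl_push, h0, map_zero])
  have hred : red (qc hA x) (qc hA y) (qc hA a) = qc hA a := by
    rw [red_apply, qc_push, qc_push, hz1, hz2, TheoryData.ext_zero_left, TheoryData.ext_zero_right,
      sub_zero, sub_zero]
  have h1 := key (qc hA a) (qc_mem _ ha)
  rw [hred, qc_comp] at h1
  have h2 : qc hA (C.comp a ψ) = 0 := by
    apply qc_of_mem
    apply hX T₀ hT₀ (C.comp a ψ)
    · have h7 := comp_mem C (e := Y.dim - 1) (e' := 1 - Y.dim) (Γ := a) (Δ := ψ)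
        (by have e : (X.dim : ℤ) + (Y.dim - 1) = ((X.prod Y).dim : ℤ) - 1 := by
              rw [dim_prod]; push_cast; ring
            rw [e]; exact ha)
        (by have e : (Y.dim : ℤ) + (1 - Y.dim) = 1 := by ring
            rw [e]; exact hψ)
      have e : (X.dim : ℤ) + (Y.dim - 1 + (1 - Y.dim)) = ((X.prod T₀).dim : ℤ) - 1 := by
        rw [dim_prod, hT₀]; push_cast; ring
      rwa [e] at h7
    · rw [cl_comp, h0, zero_comp]
  have h3 : C.comp a E = C.comp (C.comp a ψ) α := (comp_assoc C a ψ α).symm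
  rw [h3, ← qc_comp, h2, zero_comp] at h1
  exact mem_of_qc ha h1.symm

end weil

end Pool.Agent.X308.A
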